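import Mathlib
import Pool.Agent.H761R3.Gain3

/-!
# The `MS_0` theory of rank-3 `H`-gain-graphic matroids is undecidable for every infinite group `H`

The proof codes solutions of systems of equations `x + y = z`, `x * y = z`, `x = 1` in natural
numbers by cardinalities of sets of elements: if `g i` and `h j` are elements of `H` with all
products `g i * h j` distinct, the full gain graph on three vertices with the gains `g i`, `h j`,
`g i * h j` has a rank-3 frame matroid in which arbitrary binary relations between the elements
`a i` and `b j` are coded by sets of elements.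
-/

set_option autoImplicit false

namespace Pool.Agent.Results.MP_682a55_lc.InfiniteGroups

open Pool.Agent.H761R3.MS0 Pool.Agent.H761R3.Gain Pool.Agent.H761R3.Sys

universe u

/-- For every infinite group `H`, the `MS_0` theory of the class of rank-3 `H`-gain-graphic
matroids is undecidable: no partial computable function `f` is defined on the Gödel numbers of all
`MS_0` sentences and correctly tells, for every sentence, whether it holds in every finite rank-3
`H`-gain-graphic matroid. -/
theorem result (H : Type u) [Group H] [Infinite H] :
    ¬ ∃ f : ℕ →. Bool, Partrec f ∧ ∀ σ : Fml, σ.IsSentence →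
      ∃ b : Bool, f σ.code = Part.some b ∧
        (b = true ↔ ∀ (α : Type) (M : Matroid α),
          (M.E.Finite ∧ M.eRank = 3 ∧ IsGainGraphic H M) → σ.Sat M (fun _ => ∅)) := by
  refine undecidable_of_models
    (fun α M => M.E.Finite ∧ M.eRank = 3 ∧ IsGainGraphic H M) (fun α M h => h.1) ?_
  intro k L x hL hk hx
  let m : ℕ := (∑ i ∈ Finset.range k, x i) + 2
  have hm : ∀ i < k, x i ≤ m := by
    intro i hi
    have := Finset.single_le_sum (f := x) (fun _ _ => Nat.zero_le _) (Finset.mem_range.2 hi)
    change x i ≤ (∑ i ∈ Finset.range k, x i) + 2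
    omega
  obtain ⟨g, h, hg⟩ := exists_gen H m
  have h0 : 0 < m := Nat.succ_pos _
  have h1 : 1 < m := by
    change 1 < (∑ i ∈ Finset.range k, x i) + 2
    omega
  have : Nonempty (Fin m) := ⟨⟨0, h0⟩⟩
  refine ⟨El (Fin m), El.mat (Fin m), ⟨Set.toFinite _, ?_, mat_gainGraphic hg⟩,
    model k L x hL hk hx m hm⟩
  exact mat_rank ⟨0, h0⟩ ⟨1, h1⟩ (by simp)

end Pool.Agent.Results.MP_682a55_lc.InfiniteGroups
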